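import Pool.Agent.W599.DSN.Stm

/-!
# DSN-STA: no equal neighbours after the substitution
-/

set_option autoImplicit false

namespace Pool.Agent.W334.DSN

open Pool.Agent.W599.DSN

theorem ex_append {A : Type} (S T : FW A) : ex (S ++ T) = ex S ++ ex T := by
  induction S with
  | nil => rfl
  | cons c S ih =>
    rcases c with a | v
    · simp [ex, ih]
    · simp [ex, ih]

theorem ex_inl {A : Type} (l : List A) : ex (l.map Sum.inl : FW A) = l := by
  induction l with
  | nil => rfl
  | cons a l ih => simp only [List.map_cons, ex, ih]

theorem adjL_append {A : Type} (u w : List A) : AdjL (u ++ w) ↔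
    AdjL u ∧ AdjL w ∧ ∀ x ∈ u.getLast?, ∀ y ∈ w.head?, x ≠ y := List.isChain_append

theorem adjL_map {A B : Type} (g : A → B) (hg : Function.Injective g) (u : List A) (hu : AdjL u) :
    AdjL (u.map g) := by
  unfold AdjL at *
  rw [List.isChain_map]
  exact hu.imp fun a b h he => h (hg he)

theorem getLast_map {A B : Type} (g : A → B) (u : List A) :
    (u.map g).getLast? = u.getLast?.map g := List.getLast?_map

/-- copies -/
theorem sub1_spec {X Y A : Type} (g : Y → A) (h : X → A) (hg : Function.Injective g)
    (hne : ∀ x y, h x ≠ g y) (T : FW Y) (hT : ∀ v, Sum.inr v ∈ T → v ≠ []) (hA : AdjL (ex T))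
    (xs : List X) :
    AdjL (ex (sub1 g h xs T)) ∧ (ex (sub1 g h xs T)).head? = (ex T).head?.map g ∧
      (ex (sub1 g h xs T)).getLast? = (ex T).getLast?.map g := by
  induction T generalizing xs with
  | nil =>
    cases xs <;> exact ⟨List.isChain_nil, rfl, rfl⟩
  | cons c T ih =>
    have hT' : ∀ v, Sum.inr v ∈ T → v ≠ [] := fun v hv => hT v (List.mem_cons_of_mem _ hv)
    rcases c with y | v
    · -- a single letter
      have e1 : ex (sub1 g h xs (Sum.inl y :: T)) = [g y] ++ ex (sub1 g h xs T) := by
        cases xs <;> rfl
      have e2 : ex (Sum.inl y :: T) = [y] ++ ex T := rfl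
      rw [e2, adjL_append] at hA
      obtain ⟨i1, i2, i3⟩ := ih hT' hA.2.1 xs
      rw [e1, e2]
      refine ⟨?_, ?_, ?_⟩
      · rw [adjL_append]
        refine ⟨List.isChain_singleton _, i1, fun x hx z hz => ?_⟩
        rw [i2] at hz
        simp only [List.getLast?_singleton, Option.mem_def, Option.some.injEq] at hx
        simp only [Option.mem_def, Option.map_eq_some_iff] at hz
        obtain ⟨w, hw, rfl⟩ := hz
        rw [← hx]
        intro he
        exact hA.2.2 y (by simp) w hw (hg he)
      · simp
      · rw [List.getLast?_append, List.getLast?_append, i3]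
        cases (ex T).getLast? <;> simp
    · -- a fan
      have hv : v ≠ [] := hT v (by simp)
      have e2 : ex (Sum.inr v :: T) = v ++ ex T := rfl
      rw [e2, adjL_append] at hA
      cases xs with
      | nil =>
        have e1 : ex (sub1 g h [] (Sum.inr v :: T)) = v.map g ++ ex (sub1 g h [] T) := rfl
        obtain ⟨i1, i2, i3⟩ := ih hT' hA.2.1 []
        rw [e1, e2]
        refine ⟨?_, ?_, ?_⟩
        · rw [adjL_append]
          refine ⟨adjL_map g hg v hA.1, i1, fun x hx z hz => ?_⟩
          rw [i2] at hz
          rw [getLast_map] at hx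
          simp only [Option.mem_def, Option.map_eq_some_iff] at hx hz
          obtain ⟨w, hw, rfl⟩ := hz
          obtain ⟨w', hw', rfl⟩ := hx
          intro he
          exact hA.2.2 w' hw' w hw (hg he)
        · rw [List.head?_append, List.head?_append, i2, List.head?_map]
          cases v.head? <;> simp
        · rw [List.getLast?_append, List.getLast?_append, i3, getLast_map]
          cases (ex T).getLast? <;> simp
      | cons x xs =>
        obtain ⟨i1, i2, i3⟩ := ih hT' hA.2.1 xs
        have hl : v.getLast? = some (v.getLast hv) := List.getLast?_eq_some_getLast hv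
        have e1 : ex (sub1 g h (x :: xs) (Sum.inr v :: T)) =
            (v.map g ++ ([h x] ++ [g (v.getLast hv)])) ++ ex (sub1 g h xs T) := by
          change (v.map g ++ [h x]) ++ ex ((v.getLast?.toList.map (fun y => Sum.inl (g y))) ++
            sub1 g h xs T) = _
          rw [ex_append, hl]
          simp [ex]
        rw [e1, e2]
        refine ⟨?_, ?_, ?_⟩
        · rw [adjL_append, adjL_append, adjL_append]
          refine ⟨⟨adjL_map g hg v hA.1, ⟨List.isChain_singleton _, List.isChain_singleton _, ?_⟩,
            ?_⟩, i1, ?_⟩
          · intro a ha b hb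
            simp only [List.getLast?_singleton, Option.mem_def, Option.some.injEq] at ha
            simp only [List.head?_cons, Option.mem_def, Option.some.injEq] at hb
            rw [← ha, ← hb]
            exact hne _ _
          · intro a ha b hb
            rw [getLast_map] at ha
            simp only [Option.mem_def, Option.map_eq_some_iff] at ha
            obtain ⟨w', hw', rfl⟩ := ha
            simp only [List.cons_append, List.head?_cons, Option.mem_def,
              Option.some.injEq] at hb
            rw [← hb]
            exact (hne _ _).symm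
          · intro a ha b hb
            rw [i2] at hb
            simp only [Option.mem_def, Option.map_eq_some_iff] at hb
            obtain ⟨w, hw, rfl⟩ := hb
            rw [← List.append_assoc, List.getLast?_append] at ha
            simp only [List.getLast?_singleton, Option.mem_def, Option.some_or,
              Option.some.injEq] at ha
            rw [← ha]
            intro he
            exact hA.2.2 (v.getLast hv) hl w hw (hg he)
        · obtain ⟨a, v', rfl⟩ := List.exists_cons_of_ne_nil hv
          simp
        · have k : (v.map g ++ ([h x] ++ [g (v.getLast hv)])).getLast? =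
              some (g (v.getLast hv)) := by
            rw [← List.append_assoc, List.getLast?_append]; rfl
          have k1 : ∀ (P Q : List A), (P ++ Q).getLast? = Q.getLast?.or P.getLast? :=
            fun P Q => List.getLast?_append
          rw [k1, k, i3]
          have k2 : (v ++ ex T).getLast? = (ex T).getLast?.or v.getLast? := List.getLast?_append
          rw [k2, hl]
          cases (ex T).getLast? <;> rfl

theorem ex_ne_nil {A : Type} (T : FW A) (hT : ∀ v, Sum.inr v ∈ T → v ≠ []) (h : 0 < nf T) :
    ex T ≠ [] := by
  induction T with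
  | nil => simp [nf] at h
  | cons c T ih =>
    rcases c with a | v
    · simp [ex]
    · have : v ≠ [] := hT v (by simp)
      simp [ex, this]

theorem First.tail {A : Type} {c : A ⊕ List A} {T : FW A} (h : First (c :: T)) : First T := by
  intro T₁ v T₂ hT
  obtain ⟨h1, h2⟩ := h (c :: T₁) v T₂ (by rw [hT]; rfl)
  refine ⟨h1, fun a ha hmem => h2 a ha ?_⟩
  rcases c with b | w
  · exact List.mem_cons_of_mem _ hmem
  · exact List.mem_append_right _ hmem

theorem main {X Y : Type} (T₂ : FW Y) (hT2 : ∀ v, Sum.inr v ∈ T₂ → v ≠ []) (hA2 : AdjL (ex T₂))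
    (y0 : Y) (hy0 : (ex T₂).head? = some y0) (T₁ : FW X) (hT1 : ∀ v, Sum.inr v ∈ T₁ → v ≠ [])
    (hF : First T₁) (hA1 : AdjL (ex T₁)) :
    AdjL (ex (sub T₂ T₁)) ∧ (ex (sub T₂ T₁)).head? =
      (match T₁ with
        | [] => none
        | Sum.inl x :: _ => some (Sum.inl x)
        | Sum.inr v :: _ => some (Sum.inr (v, y0))) := by
  induction T₁ with
  | nil => exact ⟨List.isChain_nil, rfl⟩
  | cons c T ih =>
    have hT' : ∀ v, Sum.inr v ∈ T → v ≠ [] := fun v hv => hT1 v (List.mem_cons_of_mem _ hv)
    have hF' : First T := First.tail hF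
    rcases c with x | v
    · have e2 : ex (Sum.inl x :: T) = [x] ++ ex T := rfl
      rw [e2, adjL_append] at hA1
      obtain ⟨i1, i2⟩ := ih hT' hF' hA1.2.1
      have e1 : ex (sub T₂ (Sum.inl x :: T)) = [Sum.inl x] ++ ex (sub T₂ T) := rfl
      rw [e1]
      refine ⟨?_, rfl⟩
      rw [adjL_append]
      refine ⟨List.isChain_singleton _, i1, fun a ha b hb => ?_⟩
      simp only [List.getLast?_singleton, Option.mem_def, Option.some.injEq] at ha
      rw [← ha]
      rw [i2] at hb
      rcases T with _ | ⟨c', T'⟩
      · simp at hb
      · rcases c' with x' | v'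
        · simp only [Option.mem_def, Option.some.injEq] at hb
          rw [← hb]
          intro he
          exact hA1.2.2 x (by simp) x' (by simp [ex]) (Sum.inl_injective he)
        · simp only [Option.mem_def, Option.some.injEq] at hb
          rw [← hb]
          exact Sum.inl_ne_inr
    · have hv : v ≠ [] := hT1 v (by simp)
      have e2 : ex (Sum.inr v :: T) = v ++ ex T := rfl
      rw [e2, adjL_append] at hA1
      obtain ⟨i1, i2⟩ := ih hT' hF' hA1.2.1
      have e1 : ex (sub T₂ (Sum.inr v :: T)) =
          ex (sub1 (fun y => (Sum.inr (v, y) : X ⊕ (List X × Y))) Sum.inl v T₂) ++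
            ex (sub T₂ T) := ex_append _ _
      have hinj : Function.Injective (fun y => (Sum.inr (v, y) : X ⊕ (List X × Y))) := by
        intro a b hab
        exact (Prod.ext_iff.1 (Sum.inr_injective hab)).2
      obtain ⟨j1, j2, j3⟩ := sub1_spec (fun y => (Sum.inr (v, y) : X ⊕ (List X × Y))) Sum.inl
        hinj (fun x y => Sum.inl_ne_inr) T₂ hT2 hA2 v
      rw [e1]
      refine ⟨?_, ?_⟩
      · rw [adjL_append]
        refine ⟨j1, i1, fun a ha b hb => ?_⟩
        rw [j3] at ha
        simp only [Option.mem_def, Option.map_eq_some_iff] at ha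
        obtain ⟨w, hw, rfl⟩ := ha
        rw [i2] at hb
        rcases T with _ | ⟨c', T'⟩
        · simp at hb
        · rcases c' with x' | v'
          · simp only [Option.mem_def, Option.some.injEq] at hb
            rw [← hb]
            exact Sum.inr_ne_inl
          · simp only [Option.mem_def, Option.some.injEq] at hb
            rw [← hb]
            intro he
            have he' : v = v' := (Prod.ext_iff.1 (Sum.inr_injective he)).1
            obtain ⟨_, h2⟩ := hF [Sum.inr v] v' T' rfl
            obtain ⟨z, v'', hz⟩ := List.exists_cons_of_ne_nil hv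
            have hz1 : z ∈ v := by rw [hz]; simp
            refine h2 z (he' ▸ hz1) ?_
            simp [ex, hz1]
      · rw [List.head?_append, j2, hy0]
        rfl

theorem sta : Pool.Agent.W599.DSN.STA := by
  intro X Y m T₁ T₂ hm hO1 hO2 hnf
  obtain ⟨hl1, -, hF1, hA1, -⟩ := hO1
  obtain ⟨hl2, -, -, hA2, -⟩ := hO2
  have hT1 : ∀ v, Sum.inr v ∈ T₁ → v ≠ [] := by
    intro v hv h0
    have := hl1 v hv
    rw [h0] at this
    simp at this
    omega
  have hT2 : ∀ v, Sum.inr v ∈ T₂ → v ≠ [] := by
    intro v hv h0
    have := hl2 v hv
    rw [h0] at this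
    simp at this
    omega
  obtain ⟨y0, w, hw⟩ := List.exists_cons_of_ne_nil (ex_ne_nil T₂ hT2 hnf)
  exact (main T₂ hT2 hA2 y0 (by rw [hw]; rfl) T₁ hT1 hF1 hA1).1

end Pool.Agent.W334.DSN
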